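import Mathlib

set_option autoImplicit false

namespace Pool.Agent.Results.MP_2ce84e_co.Cex

open Function

def AWin {V : Type} [DecidableEq V] (G : SimpleGraph V) (k : ℕ) :
    ℕ → Bool → (V → Option (Fin k)) → Prop
  | 0, _, c => ∀ (x : V) (i : Fin k), ∃ y, (y = x ∨ G.Adj x y) ∧ c y = some i
  | n + 1, true, c => ∃ v, c v = none ∧ ∃ i, AWin G k n false (update c v (some i))
  | n + 1, false, c => ∀ v, c v = none → ∀ i, AWin G k n true (update c v (some i))

noncomputable def gam {V : Type} [Fintype V] [DecidableEq V] (G : SimpleGraph V) (alice : Bool) : ℕ :=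
  sSup {k | 1 ≤ k ∧ AWin G k (Fintype.card V) alice fun _ => none}

instance dec {V : Type} [Fintype V] [DecidableEq V] (G : SimpleGraph V) [DecidableRel G.Adj] (k : ℕ) :
    ∀ n t c, Decidable (AWin G k n t c)
  | 0, _, c => inferInstanceAs
      (Decidable (∀ (x : V) (i : Fin k), ∃ y, (y = x ∨ G.Adj x y) ∧ c y = some i))
  | n + 1, true, c =>
    have := dec G k n false
    inferInstanceAs (Decidable (∃ v, c v = none ∧ ∃ i, AWin G k n false (update c v (some i))))
  | n + 1, false, c =>
    have := dec G k n true
    inferInstanceAs (Decidable (∀ v, c v = none → ∀ i, AWin G k n true (update c v (some i))))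

lemma fin {V : Type} [Fintype V] [DecidableEq V] (G : SimpleGraph V) (k : ℕ) (hk : 1 ≤ k) :
    ∀ n t c, n ≤ (Finset.univ.filter fun v => c v = none).card → AWin G k n t c →
      ∃ c, AWin G k 0 true c := by
  have key : ∀ (c : V → Option (Fin k)) v i n, c v = none →
      n + 1 ≤ (Finset.univ.filter fun v => c v = none).card →
      n ≤ (Finset.univ.filter fun w => update c v (some i) w = none).card := by
    intro c v i n hv h
    have : (Finset.univ.filter fun v => c v = none).erase v ⊆
        Finset.univ.filter fun w => update c v (some i) w = none := fun w hw => by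
      simp only [Finset.mem_erase, Finset.mem_filter, Finset.mem_univ, true_and] at hw ⊢
      rw [update_of_ne hw.1, hw.2]
    have := Finset.card_le_card this
    rw [Finset.card_erase_of_mem (by simp [hv])] at this
    omega
  intro n
  induction n with
  | zero => exact fun t c _ h => ⟨c, by cases t <;> exact h⟩
  | succ n ih =>
    rintro (_ | _) c hc h
    · obtain ⟨v, hv⟩ := Finset.card_pos.1 (Nat.lt_of_lt_of_le n.succ_pos hc)
      have hv := (Finset.mem_filter.1 hv).2
      exact ih _ _ (key c v ⟨0, hk⟩ n hv hc) (h v hv _)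
    · obtain ⟨v, hv, i, h⟩ := h
      exact ih _ _ (key c v i n hv hc) h

lemma val {V : Type} [Fintype V] [DecidableEq V] (G : SimpleGraph V) [DecidableRel G.Adj] (t : Bool)
    (x : V) (a d : ℕ) (hd : (Finset.univ.filter fun y => y = x ∨ G.Adj x y).card = d) (ha : 1 ≤ a)
    (h : AWin G a (Fintype.card V) t fun _ => none)
    (h' : ∀ k ∈ Finset.Ioc a d, ¬ AWin G k (Fintype.card V) t fun _ => none) : gam G t = a := by
  refine IsGreatest.csSup_eq ⟨⟨ha, h⟩, fun k hk => ?_⟩
  by_contra hc
  refine h' k (Finset.mem_Ioc.2 ⟨by omega, ?_⟩) hk.2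
  obtain ⟨c, hc⟩ := fin G k hk.1 _ t _ (by simp) hk.2
  choose f hf using hc x
  rw [← hd]
  simpa using Finset.card_le_card_of_injOn (s := Finset.univ) f (fun i _ => by simpa using (hf i).1)
    fun i _ j _ e => Option.some_injective _ ((hf i).2.symm.trans (e ▸ (hf j).2))

def R {V : Type} [DecidableEq V] {k : ℕ} (P : (V → Option (Fin k)) → Prop) (p : V → V)
    (g : Fin k → Fin k) : ℕ → (V → Option (Fin k)) → Prop
  | 0, c => P c
  | n + 1, c => ∀ v, c v = none → ∀ i, update c v (some i) (p v) = none ∧
      R P p g n (update (update c v (some i)) (p v) (some (g i)))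

lemma inv {V : Type} [Fintype V] [DecidableEq V] {k : ℕ} (P : (V → Option (Fin k)) → Prop)
    (p : V → V) (g : Fin k → Fin k) (hp : ∀ x, p (p x) = x) (hp' : ∀ x, p x ≠ x)
    (hg : ∀ i, g (g i) = i) (hP : ∀ c, (∀ x, c (p x) = (c x).map g) → (∀ x, c x ≠ none) → P c) :
    ∀ n c, (∀ x, c (p x) = (c x).map g) →
      (Finset.univ.filter fun v => c v = none).card ≤ 2 * n → R P p g n c
  | 0, c, h, hc => hP c h fun x hx => by
      have := Finset.card_pos.2 (⟨x, by simpa using hx⟩ :
        (Finset.univ.filter fun v => c v = none).Nonempty)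
      omega
  | n + 1, c, h, hc => fun v hv i => by
      have h1 : c (p v) = none := by rw [h, hv]; rfl
      refine ⟨by rw [update_of_ne (hp' v), h1], inv P p g hp hp' hg hP n _ (fun x => ?_) ?_⟩
      · by_cases e : x = v
        · subst e
          rw [update_self, update_of_ne (hp' x).symm, update_self]; rfl
        · by_cases e' : x = p v
          · subst e'
            rw [hp, update_of_ne (hp' v).symm, update_self, update_self]
            simp [hg]
          · rw [update_of_ne e', update_of_ne e, update_of_ne fun t => e (by rw [← hp x, t, hp]),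
              update_of_ne fun t => e' (by rw [← t, hp]), h]
      · have : (Finset.univ.filter fun w =>
            update (update c v (some i)) (p v) (some (g i)) w = none) ⊆
            ((Finset.univ.filter fun v => c v = none).erase v).erase (p v) := fun w hw => by
          simp only [Finset.mem_erase, Finset.mem_filter, Finset.mem_univ, true_and] at hw ⊢
          have e' : w ≠ p v := fun t => by simp [t] at hw
          rw [update_of_ne e'] at hw
          have e : w ≠ v := fun t => by simp [t] at hw
          rw [update_of_ne e] at hw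
          exact ⟨e', e, hw⟩
        have := Finset.card_le_card this
        rw [Finset.card_erase_of_mem (by simp [h1, hp']), Finset.card_erase_of_mem (by simp [hv])]
          at this
        omega

lemma RA {V : Type} [DecidableEq V] (G : SimpleGraph V) {k : ℕ} (p : V → V) (g : Fin k → Fin k) :
    ∀ n c, R (AWin G k 0 true) p g n c → AWin G k (2 * n) false c
  | 0, _, h => h
  | n + 1, _, h => fun v hv i => ⟨p v, (h v hv i).1, g i, RA G p g n _ (h v hv i).2⟩

lemma RB {V : Type} [DecidableEq V] (G : SimpleGraph V) {k : ℕ} (p : V → V) (g : Fin k → Fin k) :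
    ∀ n c, R (fun c => ¬ AWin G k 0 true c) p g n c → ¬ AWin G k (2 * n) true c
  | 0, _, h => h
  | n + 1, _, h => fun ⟨v, hv, i, h'⟩ => RB G p g n _ (h v hv i).2 (h' _ (h v hv i).1 _)

lemma pm {V : Type} [Fintype V] [DecidableEq V] (G : SimpleGraph V) (p : V → V)
    (hp : ∀ x, p (p x) = x) (hp' : ∀ x, G.Adj x (p x)) (n : ℕ) (hn : Fintype.card V ≤ 2 * n) :
    AWin G 2 (2 * n) false fun _ => none :=
  RA G p Fin.rev n _ (inv _ p _ hp (fun x => (hp' x).ne') Fin.rev_rev (fun c h h' x i => by
    obtain ⟨j, hj⟩ := Option.ne_none_iff_exists'.1 (h' x)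
    by_cases e : j = i
    · exact ⟨x, .inl rfl, e ▸ hj⟩
    · refine ⟨p x, .inr (hp' x), ?_⟩
      rw [h, hj]
      clear hj
      revert i j
      decide) n _ (fun _ => rfl) (by simpa using hn))

def p : Fin 2 ⊕ Fin 6 → Fin 2 ⊕ Fin 6 := Sum.map ![1, 0] ![1, 0, 3, 2, 5, 4]

def E : List (Fin 6 × Fin 6) := [(0, 1), (0, 4), (1, 4), (4, 5), (2, 3), (2, 5), (3, 5)]

def H : SimpleGraph (Fin 6) := SimpleGraph.fromRel fun a b => (a, b) ∈ E

instance : DecidableRel H.Adj := fun a b =>
  inferInstanceAs (Decidable (a ≠ b ∧ ((a, b) ∈ E ∨ (b, a) ∈ E)))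

instance {V W : Type} (G : SimpleGraph V) (K : SimpleGraph W) [DecidableRel G.Adj]
    [DecidableRel K.Adj] : DecidableRel (G ⊕g K).Adj
  | .inl a, .inl b => inferInstanceAs (Decidable (G.Adj a b))
  | .inr a, .inr b => inferInstanceAs (Decidable (K.Adj a b))
  | .inl _, .inr _ => isFalse (by simp)
  | .inr _, .inl _ => isFalse (by simp)

theorem result : ∃ (a b c : ℕ) (G₁ : SimpleGraph (Fin a)) (G₂ : SimpleGraph (Fin b))
    (H₂ : SimpleGraph (Fin c)), G₁.Connected ∧ G₂.Connected ∧ H₂.Connected ∧
    gam G₂ true = gam H₂ true ∧ gam G₂ false = gam H₂ false ∧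
    gam (G₁ ⊕g G₂) true ≠ gam (G₁ ⊕g H₂) true ∧ gam (G₁ ⊕g G₂) false ≠ gam (G₁ ⊕g H₂) false := by
  refine ⟨2, 3, 6, ⊤, ⊤, H, SimpleGraph.connected_top, SimpleGraph.connected_top, by decide +kernel,
    ?_, ?_, ?_, ?_⟩
  · rw [val ⊤ true 0 2 3 (by decide) (by decide) (by decide +kernel) (by decide +kernel),
      val H true 0 2 3 (by decide) (by decide) (by decide +kernel) (by decide +kernel)]
  · rw [val ⊤ false 0 2 3 (by decide) (by decide) (by decide +kernel) (by decide +kernel),
      val H false 0 2 3 (by decide) (by decide)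
        (pm _ ![1, 0, 3, 2, 5, 4] (by decide) (by decide) 3 (by simp)) (by decide +kernel)]
  · rw [val _ true (.inl 0) 2 2 (by decide) (by decide) (by decide +kernel) (by simp),
      val _ true (.inl 0) 1 2 (by decide) (by decide) (by decide +kernel) fun k hk => by
        obtain rfl : k = 2 := by have := Finset.mem_Ioc.1 hk; omega
        refine RB _ p id 4 _ (inv _ p id (by decide) (by decide) (fun _ => rfl) (fun c h _ hc => ?_) 4 _
          (fun _ => rfl) (by simp))
        have k : ∀ i, c (.inl 0) = some i := fun i => by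
          obtain ⟨y, hy, e⟩ := hc (.inl 0) i
          have : ∀ y, (y = .inl 0 ∨ ((⊤ : SimpleGraph (Fin 2)) ⊕g H).Adj (.inl 0) y) →
              y = .inl 0 ∨ y = p (.inl 0) := by decide
          rcases this y hy with rfl | rfl
          · exact e
          · simpa [h] using e
        simpa using (k 0).symm.trans (k 1)]
    decide
  · rw [val _ false (.inl 0) 1 2 (by decide) (by decide) (by decide +kernel) (by decide +kernel),
      val _ false (.inl 0) 2 2 (by decide) (by decide) (pm _ p (by decide) (by decide) 4 (by simp)) (by simp)]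
    decide

end Pool.Agent.Results.MP_2ce84e_co.Cex
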